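import Pool.Agent.W2helper40.BH.Asm
import Pool.Agent.W2helper92.BH.REP
import Pool.Agent.W2helper69.BH.Del
import Pool.Agent.W2helper71.BH.Exi
import Pool.Agent.W4helper65.BH.Bas

/-!
MP_3c1669_nt: for every `h` there is an asymptotic basis of order `h+1` which is a `B_h[h]`-set.
The same set is a `B_k[⌊h/(h+1-k)⌋]`-set for every `k ≤ h`, in particular a `B_k[1]`-set for all
`k ≤ (h+1)/2`.
-/

set_option autoImplicit false

namespace Pool.Agent.Results.MP_3c1669_nt.GAtMostH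

/-- the representations of `n` as a sum of `k` elements of `A`, order disregarded -/
def Reps (A : Set ℕ) (k n : ℕ) : Set (Multiset ℕ) :=
  {s | Multiset.card s = k ∧ (∀ a ∈ s, a ∈ A) ∧ s.sum = n}

/-- `B_k[g]`-sets -/
def IsB (k g : ℕ) (A : Set ℕ) : Prop := ∀ n : ℕ, (Reps A k n).encard ≤ g

/-- asymptotic bases of order `k` -/
def IsAsymptoticBasis (k : ℕ) (A : Set ℕ) : Prop := ∃ N : ℕ, ∀ n ≥ N, (Reps A k n).Nonempty

/-- For every `h ≥ 1` there is a set `A` of positive integers which is an asymptotic basis of order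
`h+1` and a `B_k[⌊h/(h+1-k)⌋]`-set for all `k = 1, …, h`; the value for `k = h` is `h`. -/
theorem result (h : ℕ) (hh : 1 ≤ h) :
    ∃ A : Set ℕ, (∀ a ∈ A, 1 ≤ a) ∧ IsAsymptoticBasis (h + 1) A ∧ IsB h h A ∧
      ∀ k : ℕ, 1 ≤ k → k ≤ h → IsB k (h / (h + 1 - k)) A := by
  obtain ⟨A, h0, h1, h2⟩ := Pool.Agent.W2helper40.BH.assemble
    Pool.Agent.W2helper92.BH.p_rep Pool.Agent.W2helper69.BH.p_del
    Pool.Agent.W2helper71.BH.propExi Pool.Agent.W2helper40.BH.cln
    Pool.Agent.W4helper65.BH.p_bas h hh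
  have key : ∀ k : ℕ, 1 ≤ k → k ≤ h → IsB k (h / (h + 1 - k)) A := by
    intro k hk1 hkh n
    obtain ⟨hfin, hle⟩ := h1 k n hk1 hkh
    have h3 : (Reps A k n).ncard ≤ h / (h + 1 - k) := by
      rw [Nat.le_div_iff_mul_le (by omega)]
      exact hle
    have h4 : (Reps A k n).encard = ((Reps A k n).ncard : ℕ∞) :=
      (Set.Finite.cast_ncard_eq hfin).symm
    rw [h4]
    exact_mod_cast h3
  refine ⟨A, ?_, h2, ?_, key⟩
  · intro a ha
    rcases Nat.eq_zero_or_pos a with h5 | h5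
    · subst h5
      exact absurd ha h0
    · exact h5
  · have h6 := key h hh le_rfl
    have h7 : h + 1 - h = 1 := by omega
    rw [h7, Nat.div_one] at h6
    exact h6

end Pool.Agent.Results.MP_3c1669_nt.GAtMostH
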